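import Pool.Agent.UL6.Stmts

/-! Row GCT of squad UL6: the frusta with ratio between 3/10 and 2/5. -/

set_option autoImplicit false

namespace Pool.Agent.UL6.H38

open MeasureTheory Set Pool.Agent.UL3 Pool.Agent.UL4 Pool.Agent.UL5 Pool.Agent.UL6

/-- the midpoint of an interior point and a point of a convex set is interior -/
theorem half_int {D : Set E3} (hD : Convex ℝ D) {x y : E3} (hx : x ∈ interior D)
    (hy : y ∈ D) : (1 / 2 : ℝ) • x + (1 / 2 : ℝ) • y ∈ interior D :=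
  hD.combo_interior_self_mem_interior hx hy (by norm_num) (by norm_num) (by norm_num)

theorem core (hSEQ : SeqStmt) (hTDA : TdaStmt) (hFGV : FgvStmt) (hFGI : FgiStmt)
    (hLTF : LtfStmt) {C : Set (ℝ × ℝ)} {t a w m r : ℝ} (hC : PB C) (ha : 0 < a) (ha4 : a ≤ 1 / 4)
    (hw : w = (1 - 3 * a / 2) / (1 - a / 2)) (hw0 : 0 < w) (hm : 0 < m) (hm2 : m < 2)
    (hr : 0 < r) (hr34 : r ≤ 3 / 4) (h1 : r * (2 - m) ≤ w) (h2 : 2 - m ≤ 2 * w ^ 2 * m)
    (h3 : 1 - 3 * a / 2 = (1 - a / 2) * m * r) (ht : 1 - 3 * a ≤ t) (ht1 : t < 1)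
    (h4 : 1481 / 500 * ((3 * a - 4 * a ^ 2) * (1 - a / 2) * (m / 4)) ≤ (1 - t ^ 3) / 3) :
    Good5 (frg C 1 (1 - t)) := by
  obtain ⟨u, q, hu, hui, hH, hcr, hout⟩ := hSEQ C w m r hC hw0 hm hm2 hr hr34 h1 h2
  have hHle : (1 - 3 * a / 2) * Hm C u ≤ (1 - a / 2) * cr u q := by
    have h5 : 0 ≤ (1 - a / 2) * m / 4 := by
      have : 0 ≤ 1 - a / 2 := by linarith
      positivity
    calc (1 - 3 * a / 2) * Hm C u = (1 - a / 2) * m / 4 * (4 * r * Hm C u) := by
          rw [h3]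
          ring
      _ ≤ (1 - a / 2) * m / 4 * ar C := mul_le_mul_of_nonneg_left hH h5
      _ = (1 - a / 2) * cr u q := by
          rw [hcr]
          ring
  obtain ⟨v, hv0, hadm, hdt⟩ := hLTF C u q a hC ha ha4 hu hui hHle (by rw [← hw]; exact hout)
  obtain ⟨hTc, hTs, hTsub, _⟩ := hTDA C (1 - 3 * a) hC (by linarith) (by linarith)
  have ht0 : 0 < 1 - t := by linarith
  have ht0' : 0 < t := by linarith
  obtain ⟨_, hV⟩ := hFGV C 1 (1 - t) hC (by norm_num) ht0 (by linarith)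
  have hsub : frg C 1 (1 - t) ⊆ tda C (1 - 3 * a) := hTsub t ht
  have hint : interior (frg C 1 (1 - t)) ⊆ interior (tda C (1 - 3 * a)) := interior_mono hsub
  have h0 : (0 : E3) ∉ interior (frg C 1 (1 - t)) := by
    intro h
    have h5 : (0 : E3) = up (0, 0) 0 := by
      ext i
      fin_cases i <;> rfl
    rw [h5] at h
    have h6 := (hFGI C 1 (1 - t) (0, 0) 0 hC (by norm_num) ht0 (by linarith) h).1
    exact lt_irrefl _ h6
  refine ⟨v, 0, hv0, ?_, ?_, ?_⟩
  · intro n hn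
    rw [Set.disjoint_left]
    rintro y hy ⟨x, hx, hxy⟩
    apply hadm n hn
    have h5 : -x ∈ tda C (1 - 3 * a) := hTs x (interior_subset (hint hx))
    have h6 := half_int hTc (hint hy) h5
    have h7 : (1 / 2 : ℝ) • y + (1 / 2 : ℝ) • (-x) = ∑ i, (n i : ℝ) • v i := by
      rw [← hxy]
      simp only [smul_add, smul_smul, smul_neg]
      norm_num
    rwa [h7] at h6
  · intro n hcon
    rw [zero_add] at hcon
    by_cases hn : n = 0
    · apply h0
      rw [hn] at hcon
      simpa using hcon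
    · exact hadm n hn (hint hcon)
  · have hpos : 0 ≤ ar C := measureReal_nonneg
    rw [hdt, hV, hcr]
    have h8 : 1 - t - 1 * (1 - t) ^ 2 + 1 ^ 2 * (1 - t) ^ 3 / 3 = (1 - t ^ 3) / 3 := by ring
    rw [h8]
    calc 1481 / 500 * ((3 * a - 4 * a ^ 2) * (1 - a / 2) * (m / 4 * ar C))
        = 1481 / 500 * ((3 * a - 4 * a ^ 2) * (1 - a / 2) * (m / 4)) * ar C := by ring
      _ ≤ (1 - t ^ 3) / 3 * ar C := mul_le_mul_of_nonneg_right h4 hpos

theorem gct (hSEQ : SeqStmt) (hTDA : TdaStmt) (hFGV : FgvStmt) (hFGI : FgiStmt)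
    (hLTF : LtfStmt) : GctStmt := by
  intro C t hC h1 h2
  rcases le_total t (7 / 20) with h | h
  · have h5 : t ^ 3 ≤ (7 / 20) ^ 3 := pow_le_pow_left₀ (by linarith) h 3
    refine core hSEQ hTDA hFGV hFGI hLTF (a := 7 / 30) (w := 39 / 53) (m := 268 / 265)
      (r := 195 / 268) hC (by norm_num) (by norm_num) (by norm_num) (by norm_num) (by norm_num)
      (by norm_num) (by norm_num) (by norm_num) (by norm_num) (by norm_num) (by norm_num)
      (by linarith) (by linarith) ?_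
    norm_num at h5 ⊢
    linarith
  · have h5 : t ^ 3 ≤ (2 / 5) ^ 3 := pow_le_pow_left₀ (by linarith) h2 3
    refine core hSEQ hTDA hFGV hFGI hLTF (a := 13 / 60) (w := 81 / 107) (m := 328 / 321)
      (r := 243 / 328) hC (by norm_num) (by norm_num) (by norm_num) (by norm_num) (by norm_num)
      (by norm_num) (by norm_num) (by norm_num) (by norm_num) (by norm_num) (by norm_num)
      (by linarith) (by linarith) ?_
    norm_num at h5 ⊢
    linarith

end Pool.Agent.UL6.H38
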